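import Pool.Agent.H20.LIM.Targets
import Pool.Agent.H61.GLH.Factor
import Pool.Agent.H61.GLH.CircleCount

/-!
# Limits of `L`-functions near the critical line, module ZF: the zeros in a disc
-/

set_option autoImplicit false

open Complex MeasureTheory Set Filter Topology Metric

namespace Pool.Agent.H47.LIM

open Pool.Agent.H20.LIM

theorem divisor_nat {h : ℂ → ℂ} {c : ℂ} {r : ℝ} (hh : AnalyticOnNhd ℂ h (closedBall c r)) {w : ℂ}
    (hw : w ∈ closedBall c r) (ho : analyticOrderAt h w ≠ ⊤) :
    MeromorphicOn.divisor h (closedBall c r) w = (analyticOrderNatAt h w : ℤ) := by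
  rw [MeromorphicOn.AnalyticOnNhd.divisor_apply hh hw, analyticOrderNatAt]
  lift analyticOrderAt h w to ℕ using ho with m hm
  simp

theorem pf_zf : T_ZF := by
  classical
  intro c r r1 B h hr hrr hB hh hub hlb
  have hr1 : 0 < r1 := hr.trans hrr
  have hc0 : h c ≠ 0 := by
    intro h0
    rw [h0, norm_zero] at hlb
    exact absurd hlb (not_le.2 (Real.exp_pos _))
  have hcm : c ∈ closedBall c r1 := mem_closedBall_self hr1.le
  obtain ⟨hfin, hord⟩ := Pool.Agent.H61.GLH.finite_zeros hh hcm hc0
  have hsub : closedBall c r ⊆ closedBall c r1 := closedBall_subset_closedBall hrr.le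
  have hfin' : {z | z ∈ closedBall c r ∧ h z = 0}.Finite :=
    hfin.subset fun z hz => ⟨hsub hz.1, hz.2⟩
  set Z : Finset ℂ := hfin'.toFinset with hZ
  have hZmem : ∀ z, z ∈ Z ↔ z ∈ closedBall c r ∧ h z = 0 := fun z => by
    rw [hZ, Set.Finite.mem_toFinset]; exact Iff.rfl
  set U : Set ℂ := {z | AnalyticAt ℂ h z} with hU
  have hUo : IsOpen U := isOpen_analyticAt ℂ h
  have hUsub : closedBall c r1 ⊆ U := fun z hz => hh z hz
  obtain ⟨k, hk, hke, hk0⟩ := Pool.Agent.H61.GLH.factor_finset hUo Z (f := h)
    (fun z hz => hz) (fun w hw => hUsub (hsub ((hZmem w).1 hw).1))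
    (fun w hw => hord w (hsub ((hZmem w).1 hw).1))
  -- the list of the zeros
  set s : Multiset ℂ := ∑ w ∈ Z, Multiset.replicate (analyticOrderNatAt h w) w with hs
  have hscard : s.card = ∑ w ∈ Z, analyticOrderNatAt h w := by
    rw [hs, Multiset.card_sum]
    refine Finset.sum_congr rfl fun w _ => ?_
    exact Multiset.card_replicate _ _
  have hsmem : ∀ w ∈ s, w ∈ Z := by
    intro w hw
    rw [hs, Multiset.mem_sum] at hw
    obtain ⟨v, hv, hwv⟩ := hw
    rw [Multiset.eq_of_mem_replicate hwv]
    exact hv
  have hsprod : ∀ z : ℂ, (Multiset.map (fun w => z - w) s).prod =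
      ∏ w ∈ Z, (z - w) ^ (analyticOrderNatAt h w) := by
    intro z
    rw [hs]
    have : ∀ Y : Finset ℂ, (Multiset.map (fun w => z - w)
        (∑ w ∈ Y, Multiset.replicate (analyticOrderNatAt h w) w)).prod =
        ∏ w ∈ Y, (z - w) ^ (analyticOrderNatAt h w) := by
      intro Y
      induction Y using Finset.induction_on with
      | empty => simp
      | insert w Y hw ih =>
        rw [Finset.sum_insert hw, Finset.prod_insert hw, Multiset.map_add, Multiset.prod_add, ih,
          Multiset.map_replicate, Multiset.prod_replicate]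
    exact this Z
  refine ⟨s.toList.length, fun j => s.toList[j.1], k, ?_, ?_, hk.mono hUsub, ?_, ?_⟩
  · -- the number of the zeros
    have hj := AnalyticOnNhd.sum_divisor_le (c := c) (r := r) (R := r1) (M := Real.exp B) (f := h)
      (by rw [abs_of_pos hr]; exact hr) (by rwa [abs_of_pos hr, abs_of_pos hr1])
      (Real.one_le_exp hB) (by rwa [abs_of_pos hr1]) hc0
      (fun z hz => hub z (by
        rw [abs_of_pos hr1] at hz
        exact sphere_subset_closedBall hz))
    have h1 : ∑ᶠ u, MeromorphicOn.divisor h (closedBall c |r|) u =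
        ∑ w ∈ Z, (analyticOrderNatAt h w : ℤ) := by
      rw [abs_of_pos hr, finsum_eq_sum_of_support_subset (s := Z)]
      · refine Finset.sum_congr rfl fun w hw => ?_
        exact divisor_nat (hh.mono hsub) ((hZmem w).1 hw).1 (hord w (hsub ((hZmem w).1 hw).1))
      · intro w hw
        rw [Function.mem_support] at hw
        have hwb : w ∈ closedBall c r := by
          by_contra hcon
          exact hw (Function.locallyFinsuppWithin.apply_eq_zero_of_notMem _ hcon)
        rw [divisor_nat (hh.mono hsub) hwb (hord w (hsub hwb))] at hw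
        rw [Finset.mem_coe, hZmem]
        refine ⟨hwb, ?_⟩
        by_contra hne
        apply hw
        have := (hh w (hsub hwb)).analyticOrderAt_eq_zero.2 hne
        rw [analyticOrderNatAt, this]
        rfl
    rw [h1] at hj
    have h2 : Real.log (Real.exp B / ‖h c‖) ≤ 2 * B := by
      rw [Real.log_div (Real.exp_pos _).ne' (norm_pos_iff.2 hc0).ne', Real.log_exp]
      have h3 : -B ≤ Real.log ‖h c‖ := by
        rw [← Real.log_exp (-B)]
        exact Real.log_le_log (Real.exp_pos _) hlb
      linarith
    have hlog : 0 < Real.log (r1 / r) := Real.log_pos (by rwa [one_lt_div hr])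
    have h4 : ((s.toList.length : ℕ) : ℝ) = ((∑ w ∈ Z, (analyticOrderNatAt h w : ℤ) : ℤ) : ℝ) := by
      rw [Multiset.length_toList, hscard]
      push_cast
      rfl
    rw [h4]
    exact hj.trans (by gcongr)
  · intro j
    have : s.toList[j.1] ∈ s := Multiset.mem_toList.1 (List.getElem_mem _)
    exact ((hZmem _).1 (hsmem _ this)).1
  · intro z hz hkz
    by_cases hz0 : z ∈ Z
    · exact hk0 z hz0 hkz
    · have h1 : h z = 0 := by rw [hke z (hUsub (hsub hz)), hkz, mul_zero]
      exact hz0 ((hZmem z).2 ⟨hz, h1⟩)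
  · intro z hz
    rw [hke z (hUsub hz)]
    congr 1
    rw [Fin.prod_univ_fun_getElem s.toList (fun w => z - w), Multiset.prod_map_toList, hsprod]

end Pool.Agent.H47.LIM
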